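import Mathlib
import Pool.Agent.Q135.AV.Wedge

/-!
# Every finite simplicial complex is an avalanche complex up to homotopy

A digraph on a finite vertex set `V` is a relation `G` without loops. The configuration at time `t`
is obtained from the initial one by parallel firing: every vertex `v` with out-degree `> 0` and at least
out-degree many grains (`firing`) sends one grain along each outgoing arc. The avalanche complex
consists of the nonempty subsets of the firing sets of all times. `realization K` is the geometric
realization: all points of the simplices with vertex sets in `K`, in `ℝ^V`.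

1. For every finite simplicial complex `K` with at least one vertex there are a weakly connected
   digraph and an initial configuration whose avalanche complex is homotopy equivalent to `K`.
2. This holds for all wedges of spheres: for all `m ≥ 0` and `d_1, …, d_m ≥ 0` there are a weakly
   connected digraph and an initial configuration whose avalanche complex is homotopy equivalent to
   the wedge of the spheres of dimensions `d_1, …, d_m` (a point for `m = 0`), the quotient of the
   disjoint union of a point and the unit spheres of `ℝ^(d_i + 1)` by the identification of the base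
   points `(1, 0, …, 0)` of the spheres and the point.

The digraph: a directed path `c_0 → c_1 → … → c_M` (a clock), one further vertex `w` for every vertex of
`K`, a sink; arcs from `c_k` to the vertices of the simplex `F_k` of `K`, and from `c_M` and all `w` to
the sink. Initially `c_0` and the vertices of `F_M` are just unstable, the other `c_k` lack one grain.
The firing sets are `{c_0} ∪ F_M`, `{c_1} ∪ F_0`, …, `{c_M} ∪ F_(M-1)`, `F_M`.
-/

set_option autoImplicit false

namespace Pool.Agent.Results.MP_fb4947_gt.EveryFiniteComplex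

open ContinuousMap Finset

section defs

open Classical

variable {V : Type} [Fintype V]

/-- The out-degree of `v` in the digraph `G`. -/
noncomputable def outdeg (G : V → V → Prop) (v : V) : ℕ := (univ.filter fun w => G v w).card

/-- The firing set of the configuration `c`: the vertices which are not sinks and have at least
out-degree many grains. -/
noncomputable def firing (G : V → V → Prop) (c : V → ℕ) : Finset V :=
  univ.filter fun v => 0 < outdeg G v ∧ outdeg G v ≤ c v

/-- One step of the parallel dynamics. -/
noncomputable def step (G : V → V → Prop) (c : V → ℕ) : V → ℕ := fun v =>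
  (c v - if v ∈ firing G c then outdeg G v else 0) + ((firing G c).filter fun u => G u v).card

/-- The configuration at time `t`. -/
noncomputable def conf (G : V → V → Prop) (c₀ : V → ℕ) : ℕ → V → ℕ
  | 0 => c₀
  | t + 1 => step G (conf G c₀ t)

/-- The avalanche complex: the nonempty subsets of the firing sets. -/
def avalanche (G : V → V → Prop) (c₀ : V → ℕ) : Set (Finset V) :=
  {s | s.Nonempty ∧ ∃ t, s ⊆ firing G (conf G c₀ t)}

/-- The underlying undirected graph is connected. -/
def WeaklyConnected (G : V → V → Prop) : Prop := (SimpleGraph.fromRel G).Connected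

/-- The geometric realization of the complex `K`: the points of the simplices. -/
def realization (K : Set (Finset V)) : Set (V → ℝ) :=
  {x | (∀ v, 0 ≤ x v) ∧ ∑ v, x v = 1 ∧ ∃ s ∈ K, ∀ v, x v ≠ 0 → v ∈ s}

/-- `K` is an abstract simplicial complex: its members are nonempty and closed under passing to
nonempty subsets. -/
def IsComplex (K : Set (Finset V)) : Prop :=
  (∀ s ∈ K, s.Nonempty) ∧ ∀ s ∈ K, ∀ t, t ⊆ s → t.Nonempty → t ∈ K

end defs

/-- A point and the unit spheres of `ℝ^(d i + 1)`. -/
abbrev Spheres {m : ℕ} (d : Fin m → ℕ) : Type :=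
  Unit ⊕ Σ i : Fin m, Metric.sphere (0 : EuclideanSpace ℝ (Fin (d i + 1))) 1

/-- The base point `(1, 0, …, 0)` of the `i`-th sphere is glued to the point. -/
inductive Glue {m : ℕ} (d : Fin m → ℕ) : Spheres d → Spheres d → Prop
  | mk (i : Fin m) (h : EuclideanSpace.single 0 1 ∈
      Metric.sphere (0 : EuclideanSpace ℝ (Fin (d i + 1))) 1) :
      Glue d (Sum.inr ⟨i, ⟨EuclideanSpace.single 0 1, h⟩⟩) (Sum.inl ())

/-- The wedge of the spheres of dimensions `d i`, with the quotient topology. -/
def Wedge {m : ℕ} (d : Fin m → ℕ) : Type := Quot (Glue d)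

instance {m : ℕ} (d : Fin m → ℕ) : TopologicalSpace (Wedge d) :=
  inferInstanceAs (TopologicalSpace (Quot (Glue d)))

/-- `X` is homotopy equivalent to the avalanche complex of a weakly connected digraph. -/
def IsAvalanche (X : Type) [TopologicalSpace X] : Prop :=
  ∃ (V : Type) (_ : Fintype V) (G : V → V → Prop) (c₀ : V → ℕ),
    (∀ v, ¬ G v v) ∧ WeaklyConnected G ∧ Nonempty (realization (avalanche G c₀) ≃ₕ X)

theorem conf_eq {V : Type} [Fintype V] (G : V → V → Prop) (c₀ : V → ℕ) (t : ℕ) :
    conf G c₀ t = Pool.Agent.Q135.AV.conf G c₀ t := by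
  induction t with
  | zero => rfl
  | succ t ih =>
    change step G (conf G c₀ t) = Pool.Agent.Q135.AV.step G (Pool.Agent.Q135.AV.conf G c₀ t)
    rw [ih]
    rfl

theorem avalanche_eq {V : Type} [Fintype V] (G : V → V → Prop) (c₀ : V → ℕ) :
    avalanche G c₀ = Pool.Agent.Q135.AV.avalanche G c₀ := by
  unfold avalanche Pool.Agent.Q135.AV.avalanche
  simp only [conf_eq]
  rfl

open Classical in
theorem complexes {W : Type} [Fintype W] (K : Set (Finset W)) (hK : IsComplex K)
    (hne : K.Nonempty) : IsAvalanche (realization K) := by
  have hfin : K.Finite := Set.toFinite K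
  obtain ⟨s0, hs0⟩ := hne
  set l : List (Finset W) := hfin.toFinset.toList with hl
  have hmem : ∀ s, s ∈ l ↔ s ∈ K := by
    intro s
    rw [hl, Finset.mem_toList, Set.Finite.mem_toFinset]
  have hlen : 0 < l.length := List.length_pos_of_mem ((hmem s0).2 hs0)
  let F : ℕ → Finset W := fun k => l.getD k ∅
  set M : ℕ := l.length - 1 with hM
  have h1 : ∀ t, M < t → F t = ∅ := by
    intro t ht
    exact List.getD_eq_default _ _ (by omega)
  have h2 : ∀ t, t ≤ M → F t ∈ K := by
    intro t ht
    rw [← hmem]
    have h3 : F t = l[t]'(by omega) := List.getD_eq_getElem _ _ (by omega)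
    rw [h3]
    exact List.getElem_mem _
  have h3 : Pool.Agent.Q135.AV.facets M F = K := by
    ext s
    constructor
    · rintro ⟨hs, k, hk, hsk⟩
      exact hK.2 _ (h2 k hk) s hsk hs
    · intro hs
      obtain ⟨k, hk, hk2⟩ := List.getElem_of_mem ((hmem s).2 hs)
      refine ⟨hK.1 s hs, k, by omega, ?_⟩
      have h4 : F k = l[k]'hk := List.getD_eq_getElem _ _ hk
      rw [h4, hk2]
  have hne2 : ∀ t, t ≤ M → (F t).Nonempty := fun t ht => hK.1 _ (h2 t ht)
  refine ⟨Fin (M + 1) ⊕ Option W, inferInstance, Pool.Agent.Q135.AV.clock M F,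
    Pool.Agent.Q135.AV.start M F, Pool.Agent.Q135.AV.clock_irrefl,
    Pool.Agent.Q135.AV.clock_connected (hne2 M (le_refl _)), ?_⟩
  have h4 := Pool.Agent.Q135.AV.clock_equiv h1 hne2
  rw [h3] at h4
  rw [avalanche_eq]
  exact h4

/-- the two models of the wedge agree -/
theorem glue_iff {m : ℕ} (d : Fin m → ℕ) (a b : Spheres d) :
    Glue d a b ↔ Pool.Agent.Q135.AV.Glue d a b := by
  constructor
  · rintro ⟨i, h⟩
    exact Pool.Agent.Q135.AV.Glue.mk i h
  · rintro ⟨i, h⟩
    exact Glue.mk i h

/-- equal relations have homeomorphic quotients -/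
def quotHomeo {X : Type} [TopologicalSpace X] {r s : X → X → Prop} (h : r = s) :
    Quot r ≃ₜ Quot s := by
  subst h
  exact Homeomorph.refl _

/-- **Every finite simplicial complex and every wedge of spheres is homotopy equivalent to the
avalanche complex of a weakly connected digraph.** -/
theorem result :
    (∀ (W : Type) [Fintype W] (K : Set (Finset W)), IsComplex K → K.Nonempty →
      IsAvalanche (realization K)) ∧
    ∀ (m : ℕ) (d : Fin m → ℕ), IsAvalanche (Wedge d) := by
  classical
  refine ⟨fun W _ K hK hne => complexes K hK hne, fun m d => ?_⟩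
  have hK : IsComplex (Pool.Agent.Q135.AV.wedgeComplex d) := by
    refine ⟨fun s hs => hs.1, ?_⟩
    rintro s ⟨_, hs | ⟨i, v, hs⟩⟩ t hts ht
    · exact ⟨ht, Or.inl (hts.trans hs)⟩
    · exact ⟨ht, Or.inr ⟨i, v, hts.trans hs⟩⟩
  obtain ⟨V, iV, G, c₀, h1, h2, ⟨e⟩⟩ := complexes (Pool.Agent.Q135.AV.wedgeComplex d) hK
    ⟨{none}, Finset.singleton_nonempty _, Or.inl (Finset.Subset.refl _)⟩
  have hG : Glue d = Pool.Agent.Q135.AV.Glue d := by
    funext a b
    exact propext (glue_iff d a b)
  have e2 : Wedge d ≃ₜ Pool.Agent.Q135.AV.Wedge d := quotHomeo hG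
  exact ⟨V, iV, G, c₀, h1, h2,
    ⟨e.trans ((e2.trans (Pool.Agent.Q135.AV.wedgeHomeo d)).symm.toHomotopyEquiv)⟩⟩

end Pool.Agent.Results.MP_fb4947_gt.EveryFiniteComplex
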